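import Mathlib
import Pool.Agent.Helper52.PerturbedWalk

open scoped Topology
open Filter

namespace Pool.Agent.Results.MP_0c5cb5_pr.LocalLimitFails

open Pool.Agent.Helper52.PerturbedWalk

/-- The local limit law fails for the perturbed walk, whatever the constant `C > 0`: the supremum
`sup_x |n log n P(S_n = x) - g(x / √(n log n))|` does not tend to `0`; in fact there is a fixed
site `x` at which `n log n P(S_n = x)` does not converge to `g(0)`. -/
theorem result (C : ℝ) (hC : 0 < C) :
    ¬ Tendsto (lltError C) atTop (𝓝 0) ∧
      ∃ x : ℤ × ℤ, ¬ Tendsto (fun n : ℕ => n * Real.log n * prob n x) atTop (𝓝 (gauss C 0)) :=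
  ⟨main C hC, exists_not_tendsto (gauss C 0) (by unfold gauss; positivity)⟩

end Pool.Agent.Results.MP_0c5cb5_pr.LocalLimitFails
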